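import Mathlib

/-!
Chebyshev bounds in the form used below.
-/

set_option autoImplicit false

namespace Pool.Agent.H70.LP

open Finset

/-- number of primes up to `n` -/
def pc (n : ℕ) : ℕ := ((Icc 1 n).filter Nat.Prime).card

theorem pc_eq (n : ℕ) : pc n = Nat.primeCounting n := by
  unfold pc Nat.primeCounting Nat.primeCounting'
  rw [Nat.count_eq_card_filter_range]
  congr 1
  ext p
  simp only [mem_filter, mem_Icc, mem_range]
  constructor
  · rintro ⟨h1, h2⟩; exact ⟨by omega, h2⟩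
  · rintro ⟨h1, h2⟩; exact ⟨⟨h2.one_lt.le, by omega⟩, h2⟩

theorem pc_le_real (x : ℝ) (hx : 2 ≤ x) : (pc ⌊x⌋₊ : ℝ) ≤ 6 * x / Real.log x := by
  rw [pc_eq]
  have h1 : 1 < x := by linarith
  have hl : 0 < Real.log x := Real.log_pos h1
  have h2 := Chebyshev.pi_le_log4_mul_div h1
  have hs : Real.log √x = Real.log x / 2 := Real.log_sqrt (by linarith)
  rw [hs] at h2
  have h3 : √x * Real.log x ≤ 2 * x := by
    have h4 : Real.log √x ≤ √x - 1 := Real.log_le_sub_one_of_pos (Real.sqrt_pos.2 (by linarith))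
    have h5 : √x * √x = x := Real.mul_self_sqrt (by linarith)
    have h6 : 0 ≤ √x := Real.sqrt_nonneg x
    nlinarith
  have h4 : Real.log 4 ≤ 3 / 2 := by
    have : Real.log 4 = 2 * Real.log 2 := by
      rw [show (4 : ℝ) = 2 ^ 2 by norm_num, Real.log_pow]; norm_num
    have := Real.log_two_lt_d9
    linarith
  rw [le_div_iff₀ hl]
  have h5 : Real.log 4 * x / (Real.log x / 2) * Real.log x = 2 * Real.log 4 * x := by
    field_simp
  calc (Nat.primeCounting ⌊x⌋₊ : ℝ) * Real.log x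
      ≤ (Real.log 4 * x / (Real.log x / 2) + √x) * Real.log x :=
        mul_le_mul_of_nonneg_right h2 hl.le
    _ = 2 * Real.log 4 * x + √x * Real.log x := by rw [add_mul, h5]
    _ ≤ 6 * x := by nlinarith

theorem pc_le (n : ℕ) (hn : 2 ≤ n) : (pc n : ℝ) ≤ 6 * n / Real.log n := by
  have := pc_le_real n (by exact_mod_cast hn)
  rwa [Nat.floor_natCast] at this

/-- Chebyshev lower bound. -/
theorem le_pc : ∃ n₀ : ℕ, ∀ n : ℕ, n₀ ≤ n → (n : ℝ) / 2 / Real.log n ≤ (pc n : ℝ) := by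
  have h1 : Filter.Tendsto (fun n : ℕ => Real.log ((n : ℝ) + 1) / ((n : ℝ) + 1)) Filter.atTop
      (nhds 0) := by
    have h2 : Filter.Tendsto (fun x : ℝ => Real.log x / x) Filter.atTop (nhds 0) := by
      simpa using Real.tendsto_pow_log_div_mul_add_atTop 1 0 1 one_ne_zero
    exact h2.comp (Filter.tendsto_atTop_add_const_right _ _ tendsto_natCast_atTop_atTop)
  have h3 : ∀ᶠ n : ℕ in Filter.atTop, Real.log ((n : ℝ) + 1) / ((n : ℝ) + 1) < 1 / 100 :=
    h1.eventually (gt_mem_nhds (by norm_num))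
  obtain ⟨n₀, hn₀⟩ := Filter.eventually_atTop.1 h3
  refine ⟨max n₀ 2, fun n hn => ?_⟩
  have hn1 := hn₀ n (le_trans (le_max_left _ _) hn)
  have hn2 : 2 ≤ n := le_trans (le_max_right _ _) hn
  have hn3 : (2 : ℝ) ≤ n := by exact_mod_cast hn2
  rw [pc_eq]
  refine le_trans ?_ (Chebyshev.pi_ge n)
  have hl : 0 < Real.log n := Real.log_pos (by linarith)
  refine div_le_div_of_nonneg_right ?_ hl.le
  rw [div_lt_iff₀ (by linarith)] at hn1
  have := Real.log_two_gt_d9
  nlinarith

end Pool.Agent.H70.LP
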