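import Mathlib

/-!
Rankin type upper bound for the number of smooth integers, from Chebyshev's upper bound.
-/

set_option autoImplicit false

namespace Pool.Agent.H70.LP

open Finset

/-- The function `n ↦ n ^ (-s)` as a monoid homomorphism. -/
noncomputable def powHom (s : ℝ) : ℕ →* ℝ where
  toFun n := (n : ℝ) ^ (-s)
  map_one' := by simp
  map_mul' m n := by
    push_cast
    exact Real.mul_rpow (Nat.cast_nonneg m) (Nat.cast_nonneg n)

theorem powHom_apply (s : ℝ) (n : ℕ) : powHom s n = (n : ℝ) ^ (-s) := rfl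

theorem smooth_le_prod (y w : ℕ) (hy : 1 ≤ y) (s : ℝ) (hs : 0 < s) :
    (((Icc 1 y).filter (fun d => d ∈ Nat.smoothNumbers (w + 1))).card : ℝ)
      ≤ (y : ℝ) ^ s * ∏ p ∈ (w + 1).primesBelow, (1 - (p : ℝ) ^ (-s))⁻¹ := by
  classical
  have hlt : ∀ {p : ℕ}, p.Prime → ‖powHom s p‖ < 1 := by
    intro p hp
    rw [powHom_apply, Real.norm_of_nonneg (Real.rpow_nonneg (Nat.cast_nonneg p) _)]
    exact Real.rpow_lt_one_of_one_lt_of_neg (by exact_mod_cast hp.one_lt) (by linarith)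
  obtain ⟨-, hsum⟩ := EulerProduct.summable_and_hasSum_smoothNumbers_prod_primesBelow_geometric
    (f := powHom s) hlt (w + 1)
  set A := (Icc 1 y).filter (fun d => d ∈ Nat.smoothNumbers (w + 1)) with hA
  have h1 : ∑ m ∈ A.subtype (fun d => d ∈ Nat.smoothNumbers (w + 1)), powHom s (m : ℕ)
      ≤ ∏ p ∈ (w + 1).primesBelow, (1 - powHom s p)⁻¹ :=
    sum_le_hasSum _ (fun i _ => Real.rpow_nonneg (Nat.cast_nonneg _) _) hsum
  rw [Finset.sum_subtype_of_mem (fun m => powHom s m) (fun x hx => (mem_filter.1 hx).2)] at h1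
  have hy0 : (0 : ℝ) < y := by exact_mod_cast hy
  have h2 : (A.card : ℝ) * (y : ℝ) ^ (-s) ≤ ∑ m ∈ A, powHom s m := by
    rw [← nsmul_eq_mul]
    refine card_nsmul_le_sum _ _ _ (fun m hm => ?_)
    simp only [hA, mem_filter, mem_Icc] at hm
    rw [powHom_apply]
    exact Real.rpow_le_rpow_of_nonpos (by exact_mod_cast hm.1.1) (by exact_mod_cast hm.1.2)
      (by linarith)
  have h3 := h2.trans h1
  have h4 : (A.card : ℝ) = (A.card : ℝ) * (y : ℝ) ^ (-s) * (y : ℝ) ^ s := by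
    rw [mul_assoc, ← Real.rpow_add hy0]; simp
  rw [h4, mul_comm ((y : ℝ) ^ s)]
  exact mul_le_mul_of_nonneg_right h3 (Real.rpow_nonneg hy0.le _)

theorem inv_le_exp {t : ℝ} (h0 : 0 ≤ t) (h1 : t ≤ 2 / 3) :
    (1 - t)⁻¹ ≤ Real.exp (t + 3 * t ^ 2) := by
  have h2 : 0 < 1 - t := by linarith
  rw [inv_le_iff_one_le_mul₀ h2]
  have h3 : t + 3 * t ^ 2 + 1 ≤ Real.exp (t + 3 * t ^ 2) := Real.add_one_le_exp _
  have h4 : 1 ≤ (t + 3 * t ^ 2 + 1) * (1 - t) := by nlinarith [sq_nonneg t, mul_nonneg h0 h0]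
  exact h4.trans (mul_le_mul_of_nonneg_right h3 h2.le)

theorem two_pow_bound : (2 : ℝ) ^ (-(3 / 4 : ℝ)) ≤ 2 / 3 := by
  have h : ((2 : ℝ) ^ (-(3 / 4 : ℝ))) ^ 4 ≤ (2 / 3 : ℝ) ^ 4 := by
    rw [← Real.rpow_natCast, ← Real.rpow_mul (by norm_num)]
    norm_num
  exact le_of_pow_le_pow_left₀ (by norm_num) (by norm_num) h

theorem prod_le_exp (w : ℕ) (s : ℝ) (hs : 3 / 4 ≤ s) :
    ∏ p ∈ (w + 1).primesBelow, (1 - (p : ℝ) ^ (-s))⁻¹
      ≤ Real.exp (∑ p ∈ (w + 1).primesBelow, (p : ℝ) ^ (-s)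
        + 3 * ∑' n : ℕ, ((n : ℝ) ^ (3 / 2 : ℝ))⁻¹) := by
  have hsm : Summable (fun n : ℕ => ((n : ℝ) ^ (3 / 2 : ℝ))⁻¹) :=
    Real.summable_nat_rpow_inv.2 (by norm_num)
  have h1 : ∏ p ∈ (w + 1).primesBelow, (1 - (p : ℝ) ^ (-s))⁻¹
      ≤ ∏ p ∈ (w + 1).primesBelow, Real.exp ((p : ℝ) ^ (-s) + 3 * ((p : ℝ) ^ (-s)) ^ 2) := by
    refine prod_le_prod (fun p hp => ?_) (fun p hp => ?_)
    · have hp' := Nat.prime_of_mem_primesBelow hp
      have : (p : ℝ) ^ (-s) < 1 :=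
        Real.rpow_lt_one_of_one_lt_of_neg (by exact_mod_cast hp'.one_lt) (by linarith)
      exact inv_nonneg.2 (by linarith)
    · have hp' := Nat.prime_of_mem_primesBelow hp
      refine inv_le_exp (Real.rpow_nonneg (Nat.cast_nonneg p) _) ?_
      have h2 : (p : ℝ) ^ (-s) ≤ (2 : ℝ) ^ (-s) :=
        Real.rpow_le_rpow_of_nonpos (by norm_num) (by exact_mod_cast hp'.two_le) (by linarith)
      have h3 : (2 : ℝ) ^ (-s) ≤ (2 : ℝ) ^ (-(3 / 4 : ℝ)) :=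
        Real.rpow_le_rpow_of_exponent_le (by norm_num) (by linarith)
      exact h2.trans (h3.trans two_pow_bound)
  refine h1.trans ?_
  rw [← Real.exp_sum, Real.exp_le_exp, sum_add_distrib, ← mul_sum]
  have h2 : ∑ p ∈ (w + 1).primesBelow, ((p : ℝ) ^ (-s)) ^ 2
      ≤ ∑ p ∈ (w + 1).primesBelow, ((p : ℝ) ^ (3 / 2 : ℝ))⁻¹ := by
    refine sum_le_sum (fun p hp => ?_)
    have hp' := Nat.prime_of_mem_primesBelow hp
    have hp1 : (1 : ℝ) ≤ p := by exact_mod_cast hp'.one_lt.le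
    rw [← Real.rpow_natCast, ← Real.rpow_mul (Nat.cast_nonneg p), ← Real.rpow_neg
      (Nat.cast_nonneg p)]
    refine Real.rpow_le_rpow_of_exponent_le hp1 ?_
    push_cast
    linarith
  have h3 : ∑ p ∈ (w + 1).primesBelow, ((p : ℝ) ^ (3 / 2 : ℝ))⁻¹
      ≤ ∑' n : ℕ, ((n : ℝ) ^ (3 / 2 : ℝ))⁻¹ :=
    hsm.sum_le_tsum _ (fun n _ => by positivity)
  linarith

end Pool.Agent.H70.LP
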