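import Mathlib
import Pool.Agent.H70.LP.Cheb
import Pool.Agent.H70.LP.Smooth

/-!
Upper bound for sums of `p ^ (-(1 - eta))` and the resulting bound for smooth integers.
-/

set_option autoImplicit false

namespace Pool.Agent.H70.LP

open Finset

theorem pow_sub_one_le (x : ℝ) (hx : 1 ≤ x) (j : ℕ) : x ^ j - 1 ≤ j * (x - 1) * x ^ j := by
  have h := mul_geom_sum x j
  have h2 : ∑ i ∈ range j, x ^ i ≤ j * x ^ j := by
    calc ∑ i ∈ range j, x ^ i ≤ ∑ i ∈ range j, x ^ j :=
          sum_le_sum (fun i hi => pow_le_pow_right₀ hx (mem_range.1 hi).le)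
      _ = j * x ^ j := by simp
  have h3 : (x - 1) * ∑ i ∈ range j, x ^ i ≤ (x - 1) * (j * x ^ j) :=
    mul_le_mul_of_nonneg_left h2 (by linarith)
  linarith [h, h3]

theorem sum_pow_div (x : ℝ) (hx : 1 ≤ x) (J : ℕ) :
    ∑ j ∈ range (J + 1), x ^ j / ((j : ℝ) + 1) ≤ 1 + Real.log ((J : ℝ) + 1) + x ^ (J + 1) := by
  have h1 : ∀ j ∈ range (J + 1), x ^ j / ((j : ℝ) + 1)
      ≤ 1 / ((j : ℝ) + 1) + (x - 1) * x ^ j := by
    intro j _
    have h2 := pow_sub_one_le x hx j
    have h3 : (0 : ℝ) < (j : ℝ) + 1 := by positivity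
    have h4 : 0 ≤ (x - 1) * x ^ j := mul_nonneg (by linarith) (by positivity)
    rw [div_le_iff₀ h3, add_mul, div_mul_cancel₀ _ h3.ne']
    nlinarith
  refine (sum_le_sum h1).trans ?_
  rw [sum_add_distrib, ← mul_sum, mul_geom_sum]
  have h5 : ∑ j ∈ range (J + 1), 1 / ((j : ℝ) + 1) ≤ 1 + Real.log ((J : ℝ) + 1) := by
    have h6 := harmonic_le_one_add_log (J + 1)
    have h7 : ((harmonic (J + 1) : ℚ) : ℝ) = ∑ j ∈ range (J + 1), 1 / ((j : ℝ) + 1) := by
      simp [harmonic]
    rw [h7] at h6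
    push_cast at h6
    exact h6
  linarith

theorem psum_le (w : ℕ) (hw : 3 ≤ w) (η : ℝ) (h0 : 0 ≤ η) (h1 : η ≤ 1 / 4) :
    ∑ p ∈ (w + 1).primesBelow, (p : ℝ) ^ (-(1 - η))
      ≤ 54 * (Real.log (Real.log w) + (w : ℝ) ^ η + 1) := by
  classical
  set J := Nat.log 2 w with hJ
  have hw0 : (3 : ℝ) ≤ w := by exact_mod_cast hw
  have hlog2 : 0 < Real.log 2 := Real.log_pos (by norm_num)
  have hfib : ∀ p ∈ (w + 1).primesBelow, Nat.log 2 p ∈ range (J + 1) := by
    intro p hp
    have hpw : p ≤ w := by have := Nat.lt_of_mem_primesBelow hp; omega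
    rw [mem_range]
    have : Nat.log 2 p ≤ J := Nat.log_mono_right hpw
    omega
  rw [← sum_fiberwise_of_maps_to hfib]
  set x : ℝ := (2 : ℝ) ^ η with hx
  have hx1 : 1 ≤ x := Real.one_le_rpow (by norm_num) h0
  have hx2 : x ≤ 2 := by
    calc x ≤ (2 : ℝ) ^ (1 : ℝ) := Real.rpow_le_rpow_of_exponent_le (by norm_num) (by linarith)
      _ = 2 := by simp
  have hterm : ∀ j ∈ range (J + 1),
      ∑ p ∈ (w + 1).primesBelow.filter (fun p => Nat.log 2 p = j), (p : ℝ) ^ (-(1 - η))
        ≤ 18 * (x ^ j / ((j : ℝ) + 1)) := by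
    intro j _
    have hcard : ((((w + 1).primesBelow.filter (fun p => Nat.log 2 p = j)).card : ℕ) : ℝ)
        ≤ 6 * (2 : ℝ) ^ (j + 1) / (((j : ℝ) + 1) * Real.log 2) := by
      have hle : ((w + 1).primesBelow.filter (fun p => Nat.log 2 p = j)).card
          ≤ pc (2 ^ (j + 1)) := by
        refine card_le_card (fun p hp => ?_)
        rw [mem_filter] at hp ⊢
        have hp' := Nat.prime_of_mem_primesBelow hp.1
        refine ⟨mem_Icc.2 ⟨hp'.one_lt.le, ?_⟩, hp'⟩
        have := Nat.lt_pow_succ_log_self (b := 2) (by norm_num) p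
        rw [hp.2] at this
        exact this.le
      have h2 := pc_le (2 ^ (j + 1)) (by
        calc 2 = 2 ^ 1 := by norm_num
          _ ≤ 2 ^ (j + 1) := Nat.pow_le_pow_right (by norm_num) (by omega))
      have h3 : ((2 ^ (j + 1) : ℕ) : ℝ) = (2 : ℝ) ^ (j + 1) := by push_cast; ring
      rw [h3, Real.log_pow] at h2
      push_cast at h2
      exact le_trans (by exact_mod_cast hle) h2
    have hval : ∀ p ∈ (w + 1).primesBelow.filter (fun p => Nat.log 2 p = j),
        (p : ℝ) ^ (-(1 - η)) ≤ x ^ j / 2 ^ j := by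
      intro p hp
      rw [mem_filter] at hp
      have hp' := Nat.prime_of_mem_primesBelow hp.1
      have h2 : 2 ^ j ≤ p := by
        have := Nat.pow_log_le_self 2 hp'.ne_zero
        rwa [hp.2] at this
      have h3 : ((2 : ℝ) ^ j) ≤ (p : ℝ) := by exact_mod_cast h2
      calc (p : ℝ) ^ (-(1 - η)) ≤ ((2 : ℝ) ^ j) ^ (-(1 - η)) :=
            Real.rpow_le_rpow_of_nonpos (by positivity) h3 (by linarith)
        _ = x ^ j / 2 ^ j := by
            rw [hx, ← Real.rpow_natCast, ← Real.rpow_natCast, ← Real.rpow_mul (by norm_num),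
              ← Real.rpow_mul (by norm_num), ← Real.rpow_sub (by norm_num)]
            congr 1
            ring
    have hsum := sum_le_card_nsmul _ _ _ hval
    rw [nsmul_eq_mul] at hsum
    refine hsum.trans ?_
    have hx0 : 0 ≤ x ^ j / 2 ^ j := by positivity
    refine (mul_le_mul_of_nonneg_right hcard hx0).trans ?_
    have hj : (0 : ℝ) < (j : ℝ) + 1 := by positivity
    have heq : 6 * (2 : ℝ) ^ (j + 1) / (((j : ℝ) + 1) * Real.log 2) * (x ^ j / 2 ^ j)
        = (12 / Real.log 2) * (x ^ j / ((j : ℝ) + 1)) := by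
      field_simp
      ring
    rw [heq]
    refine mul_le_mul_of_nonneg_right ?_ (by positivity)
    rw [div_le_iff₀ hlog2]
    have := Real.log_two_gt_d9
    linarith
  refine (sum_le_sum hterm).trans ?_
  rw [← mul_sum]
  have hS := sum_pow_div x hx1 J
  have hlw : 1 ≤ Real.log w := by
    rw [Real.le_log_iff_exp_le (by linarith)]
    have := Real.exp_one_lt_d9
    linarith
  have hJw : ((2 : ℝ) ^ J) ≤ w := by
    have := Nat.pow_log_le_self 2 (show w ≠ 0 by omega)
    exact_mod_cast this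
  have hJ1 : Real.log ((J : ℝ) + 1) ≤ 2 + Real.log (Real.log w) := by
    have h2 : (J : ℝ) * Real.log 2 ≤ Real.log w := by
      rw [← Real.log_pow]
      exact Real.log_le_log (by positivity) hJw
    have h3 : (J : ℝ) + 1 ≤ 3 * Real.log w := by
      have := Real.log_two_gt_d9
      have h4 : (J : ℝ) * (1 / 2) ≤ Real.log w :=
        (mul_le_mul_of_nonneg_left (by linarith) (Nat.cast_nonneg J)).trans h2
      linarith
    have h4 : Real.log ((J : ℝ) + 1) ≤ Real.log (3 * Real.log w) :=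
      Real.log_le_log (by positivity) h3
    rw [Real.log_mul (by norm_num) (by linarith)] at h4
    have h5 : Real.log 3 ≤ 2 := by
      have := Real.log_le_sub_one_of_pos (show (0 : ℝ) < 3 by norm_num)
      linarith
    linarith
  have hxJ : x ^ (J + 1) ≤ 2 * (w : ℝ) ^ η := by
    rw [pow_succ, mul_comm]
    refine mul_le_mul hx2 ?_ (by positivity) (by norm_num)
    calc x ^ J = ((2 : ℝ) ^ J) ^ η := by
          rw [hx, ← Real.rpow_natCast, ← Real.rpow_natCast, ← Real.rpow_mul (by norm_num),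
            ← Real.rpow_mul (by norm_num)]
          congr 1
          ring
      _ ≤ (w : ℝ) ^ η := Real.rpow_le_rpow (by positivity) hJw h0
  have hll : 0 ≤ Real.log (Real.log w) := Real.log_nonneg hlw
  have hE : 1 ≤ (w : ℝ) ^ η := Real.one_le_rpow (by linarith) h0
  linarith

/-- Rankin type bound for smooth integers. -/
theorem smooth_bound : ∃ C : ℝ, 0 < C ∧ ∀ (y w : ℕ) (η : ℝ), 1 ≤ y → 3 ≤ w → 0 ≤ η → η ≤ 1 / 4 →
    (((Icc 1 y).filter (fun d => d ∈ Nat.smoothNumbers (w + 1))).card : ℝ)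
      ≤ y * Real.exp (-(η * Real.log y)
        + C * (Real.log (Real.log w) + Real.exp (η * Real.log w) + 1)) := by
  set K : ℝ := ∑' n : ℕ, ((n : ℝ) ^ (3 / 2 : ℝ))⁻¹ with hK
  have hK0 : 0 ≤ K := tsum_nonneg (fun n => by positivity)
  refine ⟨54 + 3 * K, by linarith, fun y w η hy hw h0 h1 => ?_⟩
  have hy0 : (1 : ℝ) ≤ y := by exact_mod_cast hy
  have hw0 : (3 : ℝ) ≤ w := by exact_mod_cast hw
  have h2 := smooth_le_prod y w hy (1 - η) (by linarith)
  have h3 := prod_le_exp w (1 - η) (by linarith)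
  have h4 := psum_le w hw η h0 h1
  have hlw : 1 ≤ Real.log w := by
    rw [Real.le_log_iff_exp_le (by linarith)]
    have := Real.exp_one_lt_d9
    linarith
  have hll : 0 ≤ Real.log (Real.log w) := Real.log_nonneg hlw
  have hE : 1 ≤ (w : ℝ) ^ η := Real.one_le_rpow (by linarith) h0
  have hEe : (w : ℝ) ^ η = Real.exp (η * Real.log w) := by
    rw [Real.rpow_def_of_pos (by linarith), mul_comm]
  rw [hEe] at h4 hE
  refine h2.trans ((mul_le_mul_of_nonneg_left (h3.trans (Real.exp_le_exp.2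
    (show _ ≤ (54 + 3 * K) * (Real.log (Real.log w) + Real.exp (η * Real.log w) + 1) by
      nlinarith))) (Real.rpow_nonneg (by linarith) _)).trans (le_of_eq ?_))
  have h5 : (y : ℝ) ^ (1 - η) = y * Real.exp (-(η * Real.log y)) := by
    rw [Real.rpow_sub (by linarith), Real.rpow_one, Real.exp_neg,
      Real.rpow_def_of_pos (by linarith : (0 : ℝ) < y), mul_comm (Real.log y)]
    rfl
  rw [h5, Real.exp_add]
  ring

end Pool.Agent.H70.LP
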