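import Mathlib
import Pool.Agent.H70.LP.PSum

/-!
Upper bound for the product of `1 - 1/q` over odd primes up to `w`, and the number of
primes in `(z1, z]`.
-/

set_option autoImplicit false

namespace Pool.Agent.H70.LP

open Finset

theorem log_le_inv_prod (w : ℕ) :
    Real.log ((w : ℝ) + 1) ≤ ∏ p ∈ (w + 1).primesBelow, (1 - 1 / (p : ℝ))⁻¹ := by
  classical
  have hlt : ∀ {p : ℕ}, p.Prime → ‖powHom 1 p‖ < 1 := by
    intro p hp
    rw [powHom_apply, Real.norm_of_nonneg (Real.rpow_nonneg (Nat.cast_nonneg p) _)]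
    exact Real.rpow_lt_one_of_one_lt_of_neg (by exact_mod_cast hp.one_lt) (by norm_num)
  obtain ⟨-, hsum⟩ := EulerProduct.summable_and_hasSum_smoothNumbers_prod_primesBelow_geometric
    (f := powHom 1) hlt (w + 1)
  have h1 : ∑ m ∈ (Icc 1 w).subtype (fun d => d ∈ Nat.smoothNumbers (w + 1)), powHom 1 (m : ℕ)
      ≤ ∏ p ∈ (w + 1).primesBelow, (1 - powHom 1 p)⁻¹ :=
    sum_le_hasSum _ (fun i _ => Real.rpow_nonneg (Nat.cast_nonneg _) _) hsum
  rw [Finset.sum_subtype_of_mem (fun m => powHom 1 m) (fun x hx => by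
    rw [mem_Icc] at hx
    exact Nat.mem_smoothNumbers_of_lt (by omega) (by omega))] at h1
  have h2 : ∑ m ∈ Icc 1 w, powHom 1 m = ((harmonic w : ℚ) : ℝ) := by
    rw [harmonic_eq_sum_Icc]
    push_cast
    refine sum_congr rfl (fun m _ => ?_)
    rw [powHom_apply, Real.rpow_neg_one]
  have h3 : ∏ p ∈ (w + 1).primesBelow, (1 - powHom 1 p)⁻¹
      = ∏ p ∈ (w + 1).primesBelow, (1 - 1 / (p : ℝ))⁻¹ := by
    refine prod_congr rfl (fun p _ => ?_)
    rw [powHom_apply, Real.rpow_neg_one, one_div]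
  rw [h2, h3] at h1
  refine le_trans ?_ h1
  have := log_add_one_le_harmonic w
  exact_mod_cast this

theorem odd_prod_le (w : ℕ) (hw : 3 ≤ w) :
    ∏ q ∈ (Icc 3 w).filter Nat.Prime, (1 - 1 / (q : ℝ)) ≤ 2 / Real.log w := by
  classical
  have hw0 : (3 : ℝ) ≤ w := by exact_mod_cast hw
  have hlw : 0 < Real.log w := Real.log_pos (by linarith)
  have h1 := log_le_inv_prod w
  have hset : (w + 1).primesBelow = insert 2 ((Icc 3 w).filter Nat.Prime) := by
    ext p
    simp only [Nat.mem_primesBelow, mem_insert, mem_filter, mem_Icc]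
    constructor
    · rintro ⟨h2, h3⟩
      rcases eq_or_ne p 2 with h | h
      · exact Or.inl h
      · have := h3.two_le
        exact Or.inr ⟨⟨by omega, by omega⟩, h3⟩
    · rintro (rfl | ⟨⟨h2, h3⟩, h4⟩)
      · exact ⟨by omega, Nat.prime_two⟩
      · exact ⟨by omega, h4⟩
  rw [hset, prod_insert (by simp), prod_inv_distrib] at h1
  set G := ∏ q ∈ (Icc 3 w).filter Nat.Prime, (1 - 1 / (q : ℝ)) with hG
  have hpos : 0 < G := by
    refine prod_pos (fun q hq => ?_)
    simp only [mem_filter, mem_Icc] at hq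
    have hq1 : (3 : ℝ) ≤ q := by exact_mod_cast hq.1.1
    have : 1 / (q : ℝ) < 1 := by rw [div_lt_one (by linarith)]; linarith
    linarith
  have h2 : Real.log w ≤ Real.log ((w : ℝ) + 1) := Real.log_le_log (by linarith) (by linarith)
  have h3 : Real.log w ≤ 2 * G⁻¹ := by
    refine h2.trans (h1.trans (le_of_eq ?_))
    norm_num
  rw [le_div_iff₀ hlw]
  calc G * Real.log w ≤ G * (2 * G⁻¹) := mul_le_mul_of_nonneg_left h3 hpos.le
    _ = 2 := by field_simp

theorem card_large (z1 z : ℕ) (h : z1 ≤ z) :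
    (((Ioc z1 z).filter Nat.Prime).card : ℝ) = (pc z : ℝ) - (pc z1 : ℝ) := by
  have h1 : ((Icc 1 z).filter Nat.Prime)
      = ((Icc 1 z1).filter Nat.Prime) ∪ ((Ioc z1 z).filter Nat.Prime) := by
    ext p
    simp only [mem_union, mem_filter, mem_Icc, mem_Ioc]
    constructor
    · rintro ⟨⟨h2, h3⟩, h4⟩
      by_cases h5 : p ≤ z1
      · exact Or.inl ⟨⟨h2, h5⟩, h4⟩
      · exact Or.inr ⟨⟨by omega, h3⟩, h4⟩
    · rintro (⟨⟨h2, h3⟩, h4⟩ | ⟨⟨h2, h3⟩, h4⟩)
      · exact ⟨⟨h2, by omega⟩, h4⟩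
      · exact ⟨⟨h4.one_lt.le, h3⟩, h4⟩
  have h2 : Disjoint ((Icc 1 z1).filter Nat.Prime) ((Ioc z1 z).filter Nat.Prime) := by
    rw [disjoint_left]
    intro p hp hq
    simp only [mem_filter, mem_Icc, mem_Ioc] at hp hq
    omega
  have h3 : pc z = pc z1 + ((Ioc z1 z).filter Nat.Prime).card := by
    unfold pc
    rw [h1, card_union_of_disjoint h2]
  rw [h3]
  push_cast
  ring

/-- The number of primes in `(z/48, z]`. -/
theorem large_ge : ∃ z₀ : ℕ, ∀ z : ℕ, z₀ ≤ z →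
    (z : ℝ) / (4 * Real.log z) ≤ (((Ioc (z / 48) z).filter Nat.Prime).card : ℝ) := by
  obtain ⟨n₀, hn₀⟩ := le_pc
  refine ⟨max n₀ (48 ^ 2 * 10), fun z hz => ?_⟩
  have hz1 : n₀ ≤ z := le_trans (le_max_left _ _) hz
  have hz2 : 48 ^ 2 * 10 ≤ z := le_trans (le_max_right _ _) hz
  rw [card_large _ _ (Nat.div_le_self z 48)]
  have h1 := hn₀ z hz1
  have hz3 : (48 : ℝ) ^ 2 * 10 ≤ z := by exact_mod_cast hz2
  have h2 := pc_le_real ((z : ℝ) / 48) (by linarith)
  have hfl : ⌊(z : ℝ) / 48⌋₊ = z / 48 := by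
    have := Nat.floor_div_eq_div (K := ℝ) z 48
    push_cast at this
    exact this
  rw [hfl] at h2
  have hL : 0 < Real.log z := Real.log_pos (by linarith)
  have h3 : Real.log z / 2 ≤ Real.log ((z : ℝ) / 48) := by
    rw [Real.log_div (by linarith) (by norm_num)]
    have h4 : 2 * Real.log 48 ≤ Real.log z := by
      have : Real.log ((48 : ℝ) ^ 2) ≤ Real.log z := Real.log_le_log (by positivity) (by linarith)
      rwa [Real.log_pow] at this
    linarith
  have h4 : 6 * ((z : ℝ) / 48) / Real.log ((z : ℝ) / 48) ≤ 6 * ((z : ℝ) / 48) / (Real.log z / 2) :=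
    div_le_div_of_nonneg_left (by positivity) (by linarith) h3
  have h5 : 6 * ((z : ℝ) / 48) / (Real.log z / 2) = (z : ℝ) / (4 * Real.log z) := by
    field_simp
    ring
  have h6 : (z : ℝ) / 2 / Real.log z = 2 * ((z : ℝ) / (4 * Real.log z)) := by
    field_simp
    ring
  linarith

end Pool.Agent.H70.LP
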