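import Mathlib

/-!
Combinatorial part of the Erdos-Rankin construction for the least prime in a Goldbach
partition: greedy residue classes, averaging over a common shift, Chinese remainder.
-/

set_option autoImplicit false

namespace Pool.Agent.H70.LP

open Finset

/-- Greedy choice of one residue class for each modulus. -/
theorem greedy (Q : Finset ℕ) (hQ : ∀ q ∈ Q, 0 < q) (S : Finset ℕ) :
    ∃ r : ℕ → ℕ, ((S.filter (fun s => ∀ q ∈ Q, s % q ≠ r q)).card : ℝ)
      ≤ S.card * ∏ q ∈ Q, (1 - 1 / (q : ℝ)) := by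
  classical
  induction Q using Finset.induction_on with
  | empty => exact ⟨fun _ => 0, by simp⟩
  | insert q Q hq ih =>
    obtain ⟨r, hr⟩ := ih (fun x hx => hQ x (mem_insert_of_mem hx))
    have hq0 : 0 < q := hQ q (mem_insert_self _ _)
    set S' := S.filter (fun s => ∀ q ∈ Q, s % q ≠ r q) with hS'
    obtain ⟨a, ha, hle⟩ : ∃ a ∈ range q, S'.card ≤ q * (S'.filter (fun s => s % q = a)).card := by
      by_contra hcon
      push Not at hcon
      have h1 : S'.card = ∑ a ∈ range q, (S'.filter (fun s => s % q = a)).card :=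
        card_eq_sum_card_fiberwise (fun s _ => by simpa using Nat.mod_lt s hq0)
      have h2 : ∑ a ∈ range q, q * (S'.filter (fun s => s % q = a)).card
          < ∑ a ∈ range q, S'.card :=
        sum_lt_sum_of_nonempty (by simpa using hq0.ne') hcon
      rw [← mul_sum, ← h1] at h2
      simp at h2
    refine ⟨Function.update r q a, ?_⟩
    have hsub : S.filter (fun s => ∀ x ∈ insert q Q, s % x ≠ Function.update r q a x)
        = S'.filter (fun s => ¬ s % q = a) := by
      ext s
      simp only [hS', mem_filter, mem_insert, forall_eq_or_imp, Function.update_self]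
      constructor
      · rintro ⟨h1, h2, h3⟩
        refine ⟨⟨h1, fun x hx => ?_⟩, h2⟩
        have := h3 x hx
        rwa [Function.update_of_ne (by rintro rfl; exact hq hx)] at this
      · rintro ⟨⟨h1, h3⟩, h2⟩
        refine ⟨h1, h2, fun x hx => ?_⟩
        rw [Function.update_of_ne (by rintro rfl; exact hq hx)]
        exact h3 x hx
    rw [hsub, prod_insert hq]
    have h3 : (S'.filter (fun s => s % q = a)).card + (S'.filter (fun s => ¬ s % q = a)).card
        = S'.card := card_filter_add_card_filter_not _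
    have h3' : ((S'.filter (fun s => s % q = a)).card : ℝ)
        + ((S'.filter (fun s => ¬ s % q = a)).card : ℝ) = S'.card := by exact_mod_cast h3
    have hle' : (S'.card : ℝ) ≤ q * ((S'.filter (fun s => s % q = a)).card : ℝ) := by
      exact_mod_cast hle
    have hq1 : (0 : ℝ) < q := by exact_mod_cast hq0
    have hdiv : (S'.card : ℝ) / q ≤ ((S'.filter (fun s => s % q = a)).card : ℝ) := by
      rw [div_le_iff₀ hq1]; linarith
    have hfac : (0 : ℝ) ≤ 1 - 1 / (q : ℝ) := by
      have : 1 / (q : ℝ) ≤ 1 := by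
        rw [div_le_one hq1]; exact_mod_cast hq0
      linarith
    calc ((S'.filter (fun s => ¬ s % q = a)).card : ℝ)
        ≤ S'.card - S'.card / q := by linarith
      _ = (1 - 1 / (q : ℝ)) * S'.card := by ring
      _ ≤ (1 - 1 / (q : ℝ)) * (S.card * ∏ q ∈ Q, (1 - 1 / (q : ℝ))) :=
          mul_le_mul_of_nonneg_left hr hfac
      _ = _ := by ring

/-- Averaging over a common shift. -/
theorem avg_shift (M : Finset ℕ) (hM : M.Nonempty) (P : Finset ℕ) (y : ℕ) (hy : 0 < y)
    (hP : ∀ p ∈ P, 1 ≤ p ∧ p ≤ y) :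
    ∃ a : ℕ, (P.filter (fun p => ∀ q ∈ M, p % q ≠ a % q)).card * y
      ≤ 2 * P.card * ((Icc 1 y).filter (fun d => ∀ q ∈ M, ¬ q ∣ d)).card := by
  classical
  set T := (Icc 1 y).filter (fun d => ∀ q ∈ M, ¬ q ∣ d) with hT
  by_contra hcon
  push Not at hcon
  have h1 : ∑ a ∈ Icc 1 y, 2 * P.card * T.card
      < ∑ a ∈ Icc 1 y, (P.filter (fun p => ∀ q ∈ M, p % q ≠ a % q)).card * y :=
    sum_lt_sum_of_nonempty (by simpa using (by omega : 1 ≤ y)) (fun a _ => hcon a)
  rw [sum_const, Nat.card_Icc, smul_eq_mul, add_tsub_cancel_right] at h1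
  have h2 : 2 * P.card * T.card
      < ∑ a ∈ Icc 1 y, (P.filter (fun p => ∀ q ∈ M, p % q ≠ a % q)).card := by
    have h1' : 2 * P.card * T.card * y
        < (∑ a ∈ Icc 1 y, (P.filter (fun p => ∀ q ∈ M, p % q ≠ a % q)).card) * y := by
      calc 2 * P.card * T.card * y = y * (2 * P.card * T.card) := by ring
        _ < _ := h1
        _ = _ := by rw [sum_mul]
    exact lt_of_mul_lt_mul_right h1' (Nat.zero_le y)
  have h3 : ∑ a ∈ Icc 1 y, (P.filter (fun p => ∀ q ∈ M, p % q ≠ a % q)).card
      = ∑ p ∈ P, ((Icc 1 y).filter (fun a => ∀ q ∈ M, p % q ≠ a % q)).card := by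
    simp only [card_filter]
    exact sum_comm
  rw [h3] at h2
  have h4 : ∀ p ∈ P, ((Icc 1 y).filter (fun a => ∀ q ∈ M, p % q ≠ a % q)).card
      ≤ 2 * T.card := by
    intro p hp
    obtain ⟨hp1, hp2⟩ := hP p hp
    obtain ⟨q0, hq0⟩ := hM
    have hsub : (Icc 1 y).filter (fun a => ∀ q ∈ M, p % q ≠ a % q)
        ⊆ T.image (fun d => p - d) ∪ T.image (fun d => p + d) := by
      intro a ha
      simp only [mem_filter, mem_Icc] at ha
      obtain ⟨⟨ha1, ha2⟩, ha3⟩ := ha
      have hne : a ≠ p := by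
        rintro rfl
        exact ha3 q0 hq0 rfl
      simp only [mem_union, mem_image, hT, mem_filter, mem_Icc]
      rcases lt_or_gt_of_ne hne with hlt | hgt
      · left
        refine ⟨p - a, ⟨⟨by omega, by omega⟩, fun q hq hdvd => ?_⟩, by omega⟩
        exact ha3 q hq ((Nat.modEq_iff_dvd' hlt.le).2 hdvd).symm
      · right
        refine ⟨a - p, ⟨⟨by omega, by omega⟩, fun q hq hdvd => ?_⟩, by omega⟩
        exact ha3 q hq ((Nat.modEq_iff_dvd' hgt.le).2 hdvd)
    calc _ ≤ (T.image (fun d => p - d) ∪ T.image (fun d => p + d)).card := card_le_card hsub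
      _ ≤ (T.image (fun d => p - d)).card + (T.image (fun d => p + d)).card := card_union_le _ _
      _ ≤ T.card + T.card := add_le_add card_image_le card_image_le
      _ = 2 * T.card := by ring
  have h5 := sum_le_sum h4
  rw [sum_const, smul_eq_mul] at h5
  have : P.card * (2 * T.card) = 2 * P.card * T.card := by ring
  omega

/-- Chinese remainder theorem, for twice the unknown. -/
theorem crt_class (Q : Finset ℕ) (hQ : ∀ q ∈ Q, q.Prime ∧ q ≠ 2) (R : ℕ → ℕ) :
    ∃ k : ℕ, ∀ n : ℕ, n ≡ k [MOD ∏ q ∈ Q, q] → ∀ q ∈ Q, 2 * n ≡ R q [MOD q] := by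
  classical
  obtain ⟨k, hk⟩ := Nat.chineseRemainderOfFinset (fun q => R q * ((q + 1) / 2)) (fun q => q) Q
    (fun q hq => (hQ q hq).1.ne_zero)
    (fun a ha b hb hab => (Nat.coprime_primes (hQ a ha).1 (hQ b hb).1).2 hab)
  refine ⟨k, fun n hn q hq => ?_⟩
  have hqP : q ∣ ∏ q ∈ Q, q := dvd_prod_of_mem _ hq
  have h5 : n ≡ R q * ((q + 1) / 2) [MOD q] := (hn.of_dvd hqP).trans (hk q hq)
  have h6 : 2 * n ≡ 2 * (R q * ((q + 1) / 2)) [MOD q] := h5.mul_left 2
  refine h6.trans ?_
  have hodd : q % 2 = 1 := ((hQ q hq).1.eq_two_or_odd).resolve_left (hQ q hq).2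
  have h7 : 2 * (R q * ((q + 1) / 2)) = R q + R q * q := by
    have : 2 * ((q + 1) / 2) = q + 1 := by omega
    calc 2 * (R q * ((q + 1) / 2)) = R q * (2 * ((q + 1) / 2)) := by ring
      _ = R q * (q + 1) := by rw [this]
      _ = _ := by ring
  rw [h7]
  exact Nat.ModEq.add_left _ ((Nat.modEq_zero_iff_dvd).2 (dvd_mul_left _ _))

end Pool.Agent.H70.LP
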