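import Mathlib
import Pool.Agent.H70.LP.Comb

/-!
Core construction: from a numerical inequality to an integer `n` for which twice `n`
is congruent to each small prime modulo some very small prime.
-/

set_option autoImplicit false

namespace Pool.Agent.H70.LP

open Finset

/-- The number of `d` in `[1,y]` without prime factor in `(w,z1]`. -/
def sift (y w z1 : ℕ) : ℕ :=
  ((Icc 1 y).filter (fun d => ∀ q ∈ (Ioc w z1).filter Nat.Prime, ¬ q ∣ d)).card

theorem core (y w z1 z : ℕ) (hw : 2 ≤ w) (hwz : w ≤ z1) (hz : z1 ≤ z) (hy : 0 < y)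
    (hM : ((Ioc w z1).filter Nat.Prime).Nonempty)
    (h : 2 * ((((Icc 1 y).filter Nat.Prime).card : ℕ) : ℝ) * (sift y w z1 : ℝ) / y
      * ∏ q ∈ (Icc 3 w).filter Nat.Prime, (1 - 1 / (q : ℝ))
      ≤ (((Ioc z1 z).filter Nat.Prime).card : ℝ)) :
    ∃ P k : ℕ, 0 < P ∧ P ≤ 4 ^ z ∧ ∀ n : ℕ, n ≡ k [MOD P] → ∀ p : ℕ, p.Prime → p ≤ y →
      ∃ q : ℕ, q.Prime ∧ q ≤ z ∧ 2 * n ≡ p [MOD q] := by
  classical
  set P := (Icc 1 y).filter Nat.Prime with hP
  set M := (Ioc w z1).filter Nat.Prime with hMdef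
  set Qs := (Icc 3 w).filter Nat.Prime with hQs
  set Lg := (Ioc z1 z).filter Nat.Prime with hLg
  obtain ⟨a, ha⟩ := avg_shift M hM P y hy (fun p hp => by
    simp only [hP, mem_filter, mem_Icc] at hp; exact hp.1)
  set S1 := P.filter (fun p => ∀ q ∈ M, p % q ≠ a % q) with hS1
  obtain ⟨r, hr⟩ := greedy Qs (fun q hq => by
    simp only [hQs, mem_filter, mem_Icc] at hq; omega) S1
  set S2 := S1.filter (fun s => ∀ q ∈ Qs, s % q ≠ r q) with hS2
  have hprod0 : 0 ≤ ∏ q ∈ Qs, (1 - 1 / (q : ℝ)) := by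
    refine prod_nonneg (fun q hq => ?_)
    simp only [hQs, mem_filter, mem_Icc] at hq
    have hq1 : (1 : ℝ) ≤ q := by exact_mod_cast (by omega : 1 ≤ q)
    have : 1 / (q : ℝ) ≤ 1 := by rw [div_le_one (by linarith)]; exact hq1
    linarith
  have hy' : (0 : ℝ) < y := by exact_mod_cast hy
  have hcard : S2.card ≤ Lg.card := by
    have ha' : (S1.card : ℝ) * y ≤ 2 * (P.card : ℝ) * (sift y w z1 : ℝ) := by
      have : S1.card * y ≤ 2 * P.card * sift y w z1 := ha
      exact_mod_cast this
    have h1 : (S1.card : ℝ) ≤ 2 * (P.card : ℝ) * (sift y w z1 : ℝ) / y := by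
      rw [le_div_iff₀ hy']; exact ha'
    have h2 : (S2.card : ℝ) ≤ Lg.card :=
      hr.trans ((mul_le_mul_of_nonneg_right h1 hprod0).trans h)
    exact_mod_cast h2
  obtain ⟨L', hL', hL'card⟩ := exists_subset_card_eq hcard
  have e : S2 ≃ L' := Finset.equivOfCardEq hL'card.symm
  let g : ℕ → ℕ := fun q => if hq : q ∈ L' then ((e.symm ⟨q, hq⟩ : S2) : ℕ) else 0
  let R : ℕ → ℕ := fun q => if q ≤ w then r q else if q ≤ z1 then a else g q
  obtain ⟨k, hk⟩ := crt_class ((Icc 3 z).filter Nat.Prime) (fun q hq => by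
    simp only [mem_filter, mem_Icc] at hq; exact ⟨hq.2, by omega⟩) R
  refine ⟨∏ q ∈ (Icc 3 z).filter Nat.Prime, q, k, ?_, ?_, ?_⟩
  · exact prod_pos (fun q hq => (mem_filter.1 hq).2.pos)
  · have : ∏ q ∈ (Icc 3 z).filter Nat.Prime, q ≤ 4 ^ z := by
      refine le_trans ?_ (primorial_le_four_pow z)
      unfold primorial
      refine prod_le_prod_of_subset_of_one_le' ?_ (fun q hq _ => ?_)
      · intro q hq
        simp only [mem_filter, mem_Icc, mem_range] at hq ⊢
        exact ⟨by omega, hq.2⟩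
      · simp only [mem_filter] at hq
        exact hq.2.one_lt.le
    exact this
  · intro n hn p hp hpy
    have hn3 := hk n hn
    have hpP : p ∈ P := by
      simp only [hP, mem_filter, mem_Icc]
      exact ⟨⟨hp.one_lt.le, hpy⟩, hp⟩
    by_cases h1 : p ∈ S1
    · by_cases h2 : p ∈ S2
      · set q : L' := e ⟨p, h2⟩ with hq
        have hqL : (q : ℕ) ∈ Lg := hL' q.2
        simp only [hLg, mem_filter, mem_Ioc] at hqL
        refine ⟨q, hqL.2, hqL.1.2, ?_⟩
        have h3 := hn3 q (by simp only [mem_filter, mem_Icc]; exact ⟨⟨by omega, hqL.1.2⟩, hqL.2⟩)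
        have h4 : R q = p := by
          have hw' : ¬ (q : ℕ) ≤ w := by omega
          have hz' : ¬ (q : ℕ) ≤ z1 := by omega
          simp only [R, g, hw', hz', if_false, q.2, dif_pos]
          simp [hq]
        rwa [h4] at h3
      · simp only [hS2, mem_filter, not_and, not_forall, not_not] at h2
        obtain ⟨q, hq, hqr⟩ := h2 h1
        simp only [hQs, mem_filter, mem_Icc] at hq
        refine ⟨q, hq.2, by omega, ?_⟩
        have h3 := hn3 q (by simp only [mem_filter, mem_Icc]; exact ⟨⟨by omega, by omega⟩, hq.2⟩)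
        have h4 : R q = r q := by
          simp only [R, hq.1.2, if_true]
        rw [h4, ← hqr] at h3
        exact h3.trans (Nat.mod_modEq _ _)
    · simp only [hS1, mem_filter, not_and, not_forall, not_not] at h1
      obtain ⟨q, hq, hqr⟩ := h1 hpP
      simp only [hMdef, mem_filter, mem_Ioc] at hq
      refine ⟨q, hq.2, by omega, ?_⟩
      have h3 := hn3 q (by simp only [mem_filter, mem_Icc]; exact ⟨⟨by omega, by omega⟩, hq.2⟩)
      have h4 : R q = a := by
        have hw' : ¬ q ≤ w := by omega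
        simp only [R, hw', if_false, hq.1.2, if_true]
      rw [h4] at h3
      exact h3.trans (show a % q = p % q from hqr.symm)

/-- Splitting the sifted integers: either all prime factors are at most `w`, or there is a prime
factor larger than `z1`. -/
theorem sift_le (y w z1 : ℕ) (hz1 : 0 < z1) :
    sift y w z1 ≤ ((Icc 1 y).filter (fun d => d ∈ Nat.smoothNumbers (w + 1))).card
      + ∑ m ∈ Icc 1 (y / z1), ((Icc 1 (y / m)).filter Nat.Prime).card := by
  classical
  unfold sift
  set A := (Icc 1 y).filter (fun d => d ∈ Nat.smoothNumbers (w + 1)) with hA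
  set B := (Icc 1 (y / z1)).biUnion
    (fun m => ((Icc 1 (y / m)).filter Nat.Prime).image (fun r => m * r)) with hB
  have hsub : (Icc 1 y).filter (fun d => ∀ q ∈ (Ioc w z1).filter Nat.Prime, ¬ q ∣ d) ⊆ A ∪ B := by
    intro d hd
    simp only [mem_filter, mem_Icc, mem_Ioc] at hd
    obtain ⟨⟨hd1, hd2⟩, hd3⟩ := hd
    by_cases hc : ∀ q, q.Prime → q ∣ d → q ≤ w
    · refine mem_union_left _ ?_
      simp only [hA, mem_filter, mem_Icc]
      exact ⟨⟨hd1, hd2⟩, Nat.mem_smoothNumbers'.2 (fun q hq hqd => by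
        have := hc q hq hqd; omega)⟩
    · refine mem_union_right _ ?_
      push Not at hc
      obtain ⟨q, hq, hqd, hqw⟩ := hc
      have hqz : z1 < q := by
        by_contra hcon
        exact hd3 q ⟨⟨hqw, by omega⟩, hq⟩ hqd
      obtain ⟨m, rfl⟩ := hqd
      have hm : 0 < m := by
        rcases Nat.eq_zero_or_pos m with h | h
        · subst h; simp at hd1
        · exact h
      simp only [hB, mem_biUnion, mem_image, mem_filter, mem_Icc]
      refine ⟨m, ⟨hm, ?_⟩, q, ⟨⟨hq.one_lt.le, ?_⟩, hq⟩, mul_comm _ _⟩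
      · rw [Nat.le_div_iff_mul_le hz1]
        calc m * z1 ≤ m * q := Nat.mul_le_mul_left _ hqz.le
          _ = q * m := mul_comm _ _
          _ ≤ y := hd2
      · rw [Nat.le_div_iff_mul_le hm]; exact hd2
  calc _ ≤ (A ∪ B).card := card_le_card hsub
    _ ≤ A.card + B.card := card_union_le _ _
    _ ≤ A.card + ∑ m ∈ Icc 1 (y / z1), ((Icc 1 (y / m)).filter Nat.Prime).card := by
        refine Nat.add_le_add_left ?_ _
        refine card_biUnion_le.trans (sum_le_sum fun m _ => card_image_le)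

end Pool.Agent.H70.LP
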